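import Pool.Agent.Lib.MP_9c87eb_gt.Fibre
import Pool.Agent.Lib.MP_9c87eb_gt.Loc
import Pool.Agent.Lib.MP_9c87eb_gt.SetupEx
import Pool.Agent.Lib.MP_9c87eb_gt.FMap
import Pool.Agent.Lib.MP_9c87eb_gt.Sect
import Pool.Agent.Lib.MP_9c87eb_gt.Fin

/-!
# MP_9c87eb_gt: the moduli space `M(S¹ × Q)` is not an `ANE(C)`

Own statement beside the proof of the frozen statement `S13644`. Here `M(F)` is the set of the
subsets of the pseudo-interior of the Hilbert cube which are homeomorphic to `F`, with the metric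
`ρ` of the problem file (the frozen statement uses the quotient topology of the embedding space).
-/

set_option autoImplicit false

namespace Pool.Agent.Results.MP_9c87eb_gt.CircleTimesCube

open Set Topology Uniformity

/-- the Hilbert cube `Q = [0,1]^ω` -/
abbrev Q : Type := ℕ → unitInterval

/-- the metric `‖x - y‖ = ∑ 2⁻ⁱ |xᵢ - yᵢ|` of `Q` -/
noncomputable def qdist (x y : Q) : ℝ := ∑' i : ℕ, (1 / 2 : ℝ) ^ i * |(x i : ℝ) - (y i : ℝ)|

/-- a `Q`-manifold: a separable metrizable space locally homeomorphic to open subsets of `Q` -/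
def IsQManifold (F : Type) [TopologicalSpace F] : Prop :=
  TopologicalSpace.MetrizableSpace F ∧ TopologicalSpace.SeparableSpace F ∧
    ∀ x : F, ∃ U : Set F, IsOpen U ∧ x ∈ U ∧ ∃ V : Set Q, IsOpen V ∧ Nonempty (U ≃ₜ V)

/-- the moduli space `M(F)`: the set of the subsets of the pseudo-interior `s = (0,1)^ω` of `Q` which
are homeomorphic to `F` -/
def Moduli (F : Type) [TopologicalSpace F] : Type :=
  {K : Set Q // (∀ x ∈ K, ∀ i, 0 < (x i : ℝ) ∧ (x i : ℝ) < 1) ∧ Nonempty (F ≃ₜ K)}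

/-- `ρ(K, L) < ε`: some homeomorphism `g : K → L` satisfies `‖g(x) - x‖ < ε` for all `x ∈ K` -/
def RhoLT {F : Type} [TopologicalSpace F] (K L : Moduli F) (ε : ℝ) : Prop :=
  ∃ g : K.1 ≃ₜ L.1, ∀ x : K.1, qdist (g x : Q) (x : Q) < ε

/-- continuity of a map to `M(F)` for the metric `ρ` -/
def RhoContinuous {X : Type} [TopologicalSpace X] {F : Type} [TopologicalSpace F]
    (f : X → Moduli F) : Prop :=
  ∀ x : X, ∀ ε : ℝ, 0 < ε → ∀ᶠ y in 𝓝 x, RhoLT (f y) (f x) ε

/-- `M(F)` is an absolute neighbourhood extensor for compact metric spaces -/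
def ModuliIsANE (F : Type) [TopologicalSpace F] : Prop :=
  ∀ (X : Type) [MetricSpace X] [CompactSpace X] (A : Set X), IsClosed A →
    ∀ f : A → Moduli F, RhoContinuous f →
      ∃ U : Set X, IsOpen U ∧ ∃ hAU : A ⊆ U, ∃ g : U → Moduli F, RhoContinuous g ∧
        ∀ a : A, g (Set.inclusion hAU a) = f a

open Pool.Agent.MQ

section qd

theorem summ (x y : Q) : Summable fun i : ℕ => (1 / 2 : ℝ) ^ i * |(x i : ℝ) - (y i : ℝ)| := by
  refine Summable.of_nonneg_of_le (fun i => by positivity) (fun i => ?_)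
    (summable_geometric_of_lt_one (by norm_num) (by norm_num : (1 / 2 : ℝ) < 1))
  have h : |(x i : ℝ) - (y i : ℝ)| ≤ 1 := by
    have h1 := (x i).2; have h2 := (y i).2
    rw [abs_le]; constructor <;> linarith [h1.1, h1.2, h2.1, h2.2]
  have h3 : (0 : ℝ) < (1 / 2) ^ i := by positivity
  nlinarith

theorem le_qdist (x y : Q) (i : ℕ) : (1 / 2 : ℝ) ^ i * |(x i : ℝ) - (y i : ℝ)| ≤ qdist x y :=
  (summ x y).le_tsum i (fun j _ => by positivity)

theorem qdist_comm (x y : Q) : qdist x y = qdist y x := by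
  unfold qdist
  simp only [abs_sub_comm]

/-- the metric `qdist` is bounded by the sup norm of `EB` -/
theorem qdist_lt {ε : ℝ} (hε : 0 < ε) : ∃ δ : ℝ, 0 < δ ∧ ∀ x y : ℕ → Set.Ioo (0 : ℝ) 1,
    ‖jj x - jj y‖ < δ → qdist (ic x) (ic y) < ε := by
  have hc : Continuous fun p : Q × Q => qdist p.1 p.2 := by
    unfold qdist
    refine continuous_tsum (u := fun i => (1 / 2 : ℝ) ^ i) (fun i => by fun_prop)
      (summable_geometric_of_lt_one (by norm_num) (by norm_num : (1 / 2 : ℝ) < 1)) ?_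
    intro i p
    have h : |(p.1 i : ℝ) - (p.2 i : ℝ)| ≤ 1 := by
      have h1 := (p.1 i).2; have h2 := (p.2 i).2
      rw [abs_le]; constructor <;> linarith [h1.1, h1.2, h2.1, h2.2]
    have h3 : (0 : ℝ) < (1 / 2) ^ i := by positivity
    rw [Real.norm_of_nonneg (by positivity)]
    nlinarith
  have hV : {p : Q × Q | qdist p.1 p.2 < ε} ∈ 𝓤 Q := by
    have hop : IsOpen {p : Q × Q | qdist p.1 p.2 < ε} := isOpen_lt hc continuous_const
    rw [← nhdsSet_diagonal_eq_uniformity]
    refine hop.mem_nhdsSet.2 ?_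
    rintro ⟨x, y⟩ hxy
    have hxy' : x = y := hxy
    rw [hxy']
    show qdist y y < ε
    simpa [qdist] using hε
  have h2 := uniformContinuous_cl hV
  obtain ⟨δ, hδ, h3⟩ := Metric.mem_uniformity_dist.1 (Filter.mem_map.1 h2)
  refine ⟨δ, hδ, fun x y hxy => ?_⟩
  have h4 := h3 (a := jj x) (b := jj y) (by rwa [dist_eq_norm])
  simpa only [Set.mem_preimage, Set.mem_ofPred_eq, cl_jj] using h4

end qd

section conv

/-- an embedding gives a copy of `FF` -/
noncomputable def toK (φ : Em) : Moduli FF := ⟨Set.range fun x => ic (φ.1 x), by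
  constructor
  · rintro _ ⟨x, rfl⟩ i
    exact (φ.1 x i).2
  · have hi : Function.Injective fun x => ic (φ.1 x) := ic_injective.comp φ.2.injective
    have hc : Continuous fun x => ic (φ.1 x) := continuous_ic.comp φ.1.continuous
    exact ⟨(hc.isClosedEmbedding hi).isEmbedding.toHomeomorph⟩⟩

theorem toK_surj (K : Moduli FF) : ∃ φ : Em, toK φ = K := by
  obtain ⟨K, hK, ⟨e⟩⟩ := K
  let f : FF → ℕ → Set.Ioo (0 : ℝ) 1 := fun x n => ⟨((e x : Q) n : ℝ), hK _ (e x).2 n⟩
  have hf : Continuous f := by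
    refine continuous_pi fun n => Continuous.subtype_mk ?_ _
    exact continuous_subtype_val.comp
      ((continuous_apply n).comp (continuous_subtype_val.comp e.continuous))
  have hi : Function.Injective f := by
    intro x y hxy
    apply e.injective
    apply Subtype.ext
    funext n
    apply Subtype.ext
    exact congrArg (fun g : ℕ → Set.Ioo (0 : ℝ) 1 => (g n : ℝ)) hxy
  refine ⟨⟨⟨f, hf⟩, (hf.isClosedEmbedding hi).isEmbedding⟩, ?_⟩
  apply Subtype.ext
  show (Set.range fun x => ic (f x)) = K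
  have h1 : (fun x => ic (f x)) = fun x => ((e x : K) : Q) := by
    funext x n
    apply Subtype.ext
    rfl
  rw [h1]
  ext y
  constructor
  · rintro ⟨x, rfl⟩
    exact (e x).2
  · intro hy
    exact ⟨e.symm ⟨y, hy⟩, by simp⟩

theorem toK_eq_iff (φ ψ : Em) : toK φ = toK ψ ↔ mkM φ = mkM ψ := by
  constructor
  · intro h
    rw [mkM_eq_iff]
    have hr : (Set.range fun x => ic (φ.1 x)) = Set.range fun x => ic (ψ.1 x) :=
      congrArg Subtype.val h
    have hi1 : Function.Injective fun x => ic (φ.1 x) := ic_injective.comp φ.2.injective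
    have hi2 : Function.Injective fun x => ic (ψ.1 x) := ic_injective.comp ψ.2.injective
    have hc1 : Continuous fun x => ic (φ.1 x) := continuous_ic.comp φ.1.continuous
    have hc2 : Continuous fun x => ic (ψ.1 x) := continuous_ic.comp ψ.1.continuous
    let e1 := (hc1.isClosedEmbedding hi1).isEmbedding.toHomeomorph
    let e2 := (hc2.isClosedEmbedding hi2).isEmbedding.toHomeomorph
    let h3 : FF ≃ₜ FF := (e2.trans (Homeomorph.setCongr hr.symm)).trans e1.symm
    refine ⟨h3, fun x => ?_⟩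
    apply ic_injective
    have h4 : e1 (h3 x) = Homeomorph.setCongr hr.symm (e2 x) := by
      simp [h3]
    have h5 := congrArg Subtype.val h4
    exact h5.symm
  · intro h
    obtain ⟨k, hk⟩ := (mkM_eq_iff φ ψ).1 h
    apply Subtype.ext
    show (Set.range fun x => ic (φ.1 x)) = Set.range fun x => ic (ψ.1 x)
    ext y
    constructor
    · rintro ⟨x, rfl⟩
      exact ⟨k.symm x, by simp only [hk, k.apply_symm_apply]⟩
    · rintro ⟨x, rfl⟩
      exact ⟨k x, by simp only [hk]⟩

/-- the class of an embedding as a copy of `FF` -/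
noncomputable def conv (m : MF) : Moduli FF := toK (Classical.choose (mkM_surjective m))

theorem conv_mkM (φ : Em) : conv (mkM φ) = toK φ := by
  unfold conv
  rw [toK_eq_iff]
  exact Classical.choose_spec (mkM_surjective (mkM φ))

theorem conv_inj {m m' : MF} (h : conv m = conv m') : m = m' := by
  obtain ⟨φ, rfl⟩ := mkM_surjective m
  obtain ⟨ψ, rfl⟩ := mkM_surjective m'
  rw [conv_mkM, conv_mkM, toK_eq_iff] at h
  exact h

/-- the class of a copy -/
noncomputable def inv (K : Moduli FF) : MF := mkM (Classical.choose (toK_surj K))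

theorem conv_inv (K : Moduli FF) : conv (inv K) = K := by
  unfold inv
  rw [conv_mkM]
  exact Classical.choose_spec (toK_surj K)

theorem inv_conv (m : MF) : inv (conv m) = m := conv_inj (conv_inv _)

theorem rhoLT_of_rho {ε : ℝ} (hε : 0 < ε) : ∃ δ : ℝ, 0 < δ ∧ ∀ m m' : MF, rho δ m m' →
    RhoLT (conv m) (conv m') ε := by
  obtain ⟨δ, hδ, h1⟩ := qdist_lt hε
  refine ⟨δ, hδ, ?_⟩
  rintro _ _ ⟨φ, ψ, rfl, rfl, h⟩
  rw [conv_mkM, conv_mkM]
  have hi1 : Function.Injective fun x => ic (φ.1 x) := ic_injective.comp φ.2.injective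
  have hi2 : Function.Injective fun x => ic (ψ.1 x) := ic_injective.comp ψ.2.injective
  have hc1 : Continuous fun x => ic (φ.1 x) := continuous_ic.comp φ.1.continuous
  have hc2 : Continuous fun x => ic (ψ.1 x) := continuous_ic.comp ψ.1.continuous
  let e1 : FF ≃ₜ (toK φ).1 := (hc1.isClosedEmbedding hi1).isEmbedding.toHomeomorph
  let e2 : FF ≃ₜ (toK ψ).1 := (hc2.isClosedEmbedding hi2).isEmbedding.toHomeomorph
  refine ⟨e1.symm.trans e2, fun x => ?_⟩
  obtain ⟨y, rfl⟩ := e1.surjective x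
  have h2 : (e1.symm.trans e2) (e1 y) = e2 y := by
    show e2 (e1.symm (e1 y)) = e2 y
    rw [e1.symm_apply_apply]
  have h3 : qdist ((e2 y : (toK ψ).1) : Q) ((e1 y : (toK φ).1) : Q) < ε := by
    show qdist (ic (ψ.1 y)) (ic (φ.1 y)) < ε
    rw [qdist_comm]
    exact h1 _ _ (h y)
  rw [← h2] at h3
  exact h3

theorem rhoContinuous_conv {X : Type} [TopologicalSpace X] {f : X → MF} (hf : Continuous f) :
    RhoContinuous fun x => conv (f x) := by
  intro x ε hε
  obtain ⟨δ, hδ, h1⟩ := rhoLT_of_rho hε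
  have h2 : ∀ᶠ m in 𝓝 (f x), rho δ m (f x) := (isOpen_rho δ (f x)).mem_nhds (rho_refl hδ _)
  filter_upwards [hf.continuousAt.eventually h2] with y hy
  exact h1 _ _ hy

/-- a neighbourhood of a class contains a `ρ`-ball -/
theorem exists_ball {O : Set MF} (hO : IsOpen O) {m : MF} (hm : m ∈ O) :
    ∃ ε : ℝ, 0 < ε ∧ ∀ m' : MF, RhoLT (conv m') (conv m) ε → m' ∈ O := by
  obtain ⟨φ, rfl⟩ := mkM_surjective m
  have hO' : IsOpen (mkM ⁻¹' O) := hO.preimage continuous_mkM
  obtain ⟨O2, hO2, h2⟩ := isOpen_induced_iff.1 hO'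
  have hφ : φ.1 ∈ O2 := by
    have : φ ∈ Subtype.val ⁻¹' O2 := by rw [h2]; exact hm
    exact this
  have h3 := (hO2.mem_nhds hφ)
  rw [nhds_eq_comap_uniformity, Filter.mem_comap] at h3
  obtain ⟨W, hW, hWO⟩ := h3
  rw [ContinuousMap.mem_compactConvergence_entourage_iff] at hW
  obtain ⟨K, V, hK, hV, hKV⟩ := hW
  -- entourages contain `qdist`-balls
  have h4 : ∃ ε : ℝ, 0 < ε ∧ ∀ x y : ℕ → Set.Ioo (0 : ℝ) 1, qdist (ic x) (ic y) < ε →
      (x, y) ∈ V := by
    rw [Pi.uniformity, Filter.mem_iInf] at hV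
    obtain ⟨I, hI, V', hV', rfl⟩ := hV
    have h5 : ∀ i : I, ∃ ε : ℝ, 0 < ε ∧ ∀ x y : ℕ → Set.Ioo (0 : ℝ) 1, qdist (ic x) (ic y) < ε →
        (x, y) ∈ V' i := by
      intro i
      obtain ⟨T, hT, hTV⟩ := Filter.mem_comap.1 (hV' i)
      obtain ⟨η, hη, hηT⟩ := Metric.mem_uniformity_dist.1 hT
      refine ⟨(1 / 2) ^ (i : ℕ) * η, by positivity, fun x y hxy => hTV ?_⟩
      apply hηT
      have h6 := le_qdist (ic x) (ic y) i
      have h7 : (1 / 2 : ℝ) ^ (i : ℕ) * |((ic x i : unitInterval) : ℝ) - (ic y i : unitInterval)| <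
        (1 / 2) ^ (i : ℕ) * η := lt_of_le_of_lt h6 hxy
      have h8 := lt_of_mul_lt_mul_left h7 (by positivity)
      exact h8
    choose ε hε hεV using h5
    have := hI.to_subtype
    have := Fintype.ofFinite I
    rcases isEmpty_or_nonempty I with hE | hE
    · exact ⟨1, one_pos, fun x y _ => by
        rw [Set.mem_iInter]; intro i; exact (hE.false i).elim⟩
    · refine ⟨Finset.univ.inf' Finset.univ_nonempty ε, ?_, fun x y hxy => ?_⟩
      · rw [Finset.lt_inf'_iff]
        exact fun i _ => hε i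
      · rw [Set.mem_iInter]
        intro i
        exact hεV i x y (lt_of_lt_of_le hxy (Finset.inf'_le _ (Finset.mem_univ i)))
  obtain ⟨ε, hε, h4⟩ := h4
  refine ⟨ε, hε, fun m' hm' => ?_⟩
  obtain ⟨ψ, rfl⟩ := mkM_surjective m'
  rw [conv_mkM, conv_mkM] at hm'
  obtain ⟨g, hg⟩ := hm'
  have hi1 : Function.Injective fun x => ic (φ.1 x) := ic_injective.comp φ.2.injective
  have hi2 : Function.Injective fun x => ic (ψ.1 x) := ic_injective.comp ψ.2.injective
  have hc1 : Continuous fun x => ic (φ.1 x) := continuous_ic.comp φ.1.continuous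
  have hc2 : Continuous fun x => ic (ψ.1 x) := continuous_ic.comp ψ.1.continuous
  let e1 : FF ≃ₜ (toK φ).1 := (hc1.isClosedEmbedding hi1).isEmbedding.toHomeomorph
  let e2 : FF ≃ₜ (toK ψ).1 := (hc2.isClosedEmbedding hi2).isEmbedding.toHomeomorph
  let k : FF ≃ₜ FF := (e1.trans g.symm).trans e2.symm
  let ψ' : Em := ⟨ψ.1.comp ⟨k, k.continuous⟩, ψ.2.comp k.isEmbedding⟩
  have h5 : mkM ψ = mkM ψ' := by
    rw [mkM_eq_iff]
    exact ⟨k, fun x => rfl⟩
  have h6 : ∀ x, qdist (ic (φ.1 x)) (ic (ψ'.1 x)) < ε := by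
    intro x
    have h7 := hg (g.symm (e1 x))
    rw [g.apply_symm_apply] at h7
    have h8 : e2 (k x) = g.symm (e1 x) := by simp [k]
    have h9 : ((g.symm (e1 x) : (toK ψ).1) : Q) = ic (ψ'.1 x) := by
      rw [← h8]; rfl
    rw [h9] at h7
    exact h7
  rw [h5]
  have h10 : ψ' ∈ (Subtype.val : Em → _) ⁻¹' O2 := by
    apply hWO
    apply hKV
    intro x _
    exact h4 _ _ (h6 x)
  rw [h2] at h10
  exact h10

theorem continuous_inv {X : Type} [TopologicalSpace X] {g : X → Moduli FF}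
    (hg : RhoContinuous g) : Continuous fun x => inv (g x) := by
  rw [continuous_iff_continuousAt]
  intro x
  rw [ContinuousAt, tendsto_nhds]
  intro O hO hx
  obtain ⟨ε, hε, h⟩ := exists_ball hO hx
  filter_upwards [hg x ε hε] with y hy
  apply h
  rw [conv_inv, conv_inv]
  exact hy

end conv

/-- **`S¹ × Q` is a compact `Q`-manifold whose moduli space is not an `ANE(C)`.** -/
theorem result : CompactSpace (Circle × Q) ∧ IsQManifold (Circle × Q) ∧
    ¬ ModuliIsANE (Circle × Q) := by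
  refine ⟨inferInstance, ⟨inferInstance, inferInstance, fun x => FF_locally x⟩, fun H => ?_⟩
  obtain ⟨𝔽⟩ := exists_fib
  obtain ⟨S⟩ := exists_setup 𝔽
  obtain ⟨f, hf⟩ := exists_fmap 𝔽 S
  have hcl : IsClosed (Set.range S.JE) := (isCompact_range S.JE_cont).isClosed
  obtain ⟨U, hU, hAU, g, hgc, hg⟩ := @H HC
    (PiCountable.metricSpace : MetricSpace (ℕ → unitInterval)) inferInstance (Set.range S.JE) hcl
    (fun a => conv (f a)) (rhoContinuous_conv f.continuous)
  refine fin_contra 𝔽 S fun ε hε => exists_sect 𝔽 S hU hAU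
    ⟨fun u => inv (g u), continuous_inv hgc⟩ (fun e => ?_) ε hε
  have h1 := hg ⟨S.JE e, e, rfl⟩
  show inv (g ⟨S.JE e, hAU ⟨e, rfl⟩⟩) = mkM (S.φ e)
  rw [← hf e, ← inv_conv (f ⟨S.JE e, e, rfl⟩), ← h1]

end Pool.Agent.Results.MP_9c87eb_gt.CircleTimesCube
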